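import Pool.Agent.H94.ConvCyc

set_option autoImplicit false

namespace Pool.Agent.Results.MP_8292e8_an.Square

universe u v

/-- Every nonzero separable real or complex Banach space carries a convex-cyclic operator whose
square is not convex-cyclic. -/
theorem result (𝕂 : Type u) [RCLike 𝕂] (X : Type v) [NormedAddCommGroup X] [NormedSpace 𝕂 X]
    [NormedSpace ℝ X] [IsScalarTower ℝ 𝕂 X] [CompleteSpace X]
    [TopologicalSpace.SeparableSpace X] [Nontrivial X] :
    ∃ S : X →L[𝕂] X, (∃ y, Dense (convexHull ℝ (Set.range fun n : ℕ => (S ^ n) y))) ∧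
      ¬ ∃ y, Dense (convexHull ℝ (Set.range fun n : ℕ => ((S ^ 2) ^ n) y)) :=
  Pool.Agent.H94.ConvCyc.main

end Pool.Agent.Results.MP_8292e8_an.Square
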